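import Mathlib
import Pool.Graph.R_seed8.H808R2.AH.Problem
import Pool.Agent.KS6_79.AH.G20

/-!
# MP_039ae7_nt: no spacing probability `p(d)`, `d ≥ 5/2`, is determined by (a)-(c)

For EVERY half-integer `d = k/2`, `k ≥ 5`, there is an interval `[c - κ, c + κ]`, `κ > 0`, such that for
ALL `a ≤ b` in it some sequence of the class `𝒮` has `p₋(d) = a` and `p₊(d) = b`.  The sequences lie in
`(1/2) ℕ`, and ALL their correlations of order at most `k` are those of the sine process on the
half-integers: for `n < k` and distinct nonzero integers `y_i` the proportion of the `j` for which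
`x_j + y_1/2, ..., x_j + y_n/2` are terms of the sequence is `2^(-n) W_(n+1)(0, y_1/2, ..., y_n/2)`.
So (a)-(c), even together with all the correlations of order `≤ k`, do not determine `p(k/2)`.  This is
best possible, as `p(k/2)` is a linear combination of correlations of order `≤ k + 1`.

Proof.  The discrete circular ensemble on the ring of `2N` sites is tilted by an `n`-body interaction,
`n = k + 1`, of the spins of the even sites, a product of `n` DIFFERENT functions with far Fourier
support; it changes only the probability that `n` consecutive sites are occupied.  The first order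
change is a multilinear form in the `n` functions; on exponentials of frequencies `ξ_1, ..., ξ_n`
(with integral sum) it converges to an explicit exponential polynomial `f(ξ)`, a sum of determinants.
At the even integer points of a line through a far point `f` is a polynomial with a nonzero leading
coefficient, so by the identity theorem `f` does not vanish at some rational far point.
-/

set_option autoImplicit false

namespace Pool.Agent.Results.MP_039ae7_nt.EveryLargeGap

open Pool.Agent.H808R2.AH
open Finset Filter Topology

/-- the proportion of the `j < M` for which all the numbers `x_j + y_i / 2` are terms of the sequence -/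
noncomputable def corr {n : ℕ} (x : ℕ → ℝ) (y : Fin n → ℤ) (M : ℕ) : ℝ :=
  open Classical in (#{j ∈ range M | ∀ i, ∃ l, x l = x j + (y i : ℝ) / 2} : ℝ) / M

/-- For every `k ≥ 5` there is an interval `[c - κ, c + κ]` such that all pairs `a ≤ b` in it are pairs
`(p₋(k/2), p₊(k/2))` of sequences of the class `𝒮` with the same correlations of order at most `k`;
in particular (a)-(c) do not determine `p(k/2)`. -/
theorem result (k : ℕ) (hk : 5 ≤ k) :
    (∃ c κ : ℝ, 0 < κ ∧ ∀ a b : ℝ, c - κ ≤ a → a ≤ b → b ≤ c + κ →
      ∃ x : ℕ → ℝ, InS x ∧ StrictMono x ∧ (∀ j, ∃ m : ℕ, x j = (m : ℝ) / 2) ∧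
        (∀ n : ℕ, n < k → ∀ y : Fin n → ℤ, Function.Injective y → (∀ i, y i ≠ 0) →
          Tendsto (corr x y) atTop (𝓝 ((1 / 2) ^ n * W (Fin.cons 0 fun i => (y i : ℝ) / 2)))) ∧
        pMinus x (k / 2) = a ∧ pPlus x (k / 2) = b) ∧
    ¬ Determined (k / 2) := by
  obtain ⟨c, hc⟩ := Pool.Agent.KS6_79.AH.base_patk k
  obtain ⟨κ, hκ, h⟩ := Pool.Agent.KS6_79.AH.seq_gen k (by omega)
    (Pool.Agent.KS6_79.AH.hasG_six (k + 1) (by omega)) hc
  refine ⟨⟨c, κ, hκ, h⟩, ?_⟩
  rintro ⟨v, hv⟩
  obtain ⟨x, hx, -, -, -, h1, h2⟩ := h (c - κ) (c + κ) le_rfl (by linarith) le_rfl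
  have h3 := hv x hx
  rw [h1, h2] at h3
  linarith [h3.1, h3.2]

end Pool.Agent.Results.MP_039ae7_nt.EveryLargeGap
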